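import Pool.Agent.U36.RG.Const

/-!
# Constants of rational function fields and of their finite extensions
-/

set_option autoImplicit false

open IntermediateField Polynomial

namespace Pool.Agent.U36.RG

universe u v w

/-- `k` is algebraically closed in `k(X)` -/
theorem algClosedIn_ratFunc (k : Type u) [Field k] : AlgClosedIn k (RatFunc k) := by
  intro y hy
  have h1 : IsIntegral k[X] y := hy.isIntegral.tower_top
  obtain ⟨f, hf⟩ := IsIntegrallyClosed.isIntegral_iff.1 h1
  have h2 : IsAlgebraic k f := by
    rw [← hf] at hy
    exact (isAlgebraic_algebraMap_iff (IsFractionRing.injective k[X] (RatFunc k))).1 hy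
  have h3 : f.natDegree = 0 := by
    by_contra h
    refine Polynomial.transcendental f h (mem_nonZeroDivisors_of_ne_zero ?_) h2
    rw [Ne, Polynomial.leadingCoeff_eq_zero]
    rintro rfl
    exact h Polynomial.natDegree_zero
  refine ⟨f.coeff 0, ?_⟩
  rw [← hf, Polynomial.eq_C_of_natDegree_eq_zero h3, Polynomial.coeff_C_zero]
  rfl

section

variable {k : Type u} {K : Type v} {F : Type w} [Field k] [Field K] [Field F] [Algebra k K]
  [Algebra K F] [Algebra k F] [IsScalarTower k K F]

/-- the degree of a constant does not change over `K` -/
lemma natDegree_minpoly_le (hk : AlgClosedIn k K) {y : F} (hy : IsAlgebraic k y) :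
    (minpoly k y).natDegree ≤ (minpoly K y).natDegree := by
  have hi : IsIntegral k y := hy.isIntegral
  have hiK : IsIntegral K y := hi.tower_top
  have hdvd : minpoly K y ∣ (minpoly k y).map (algebraMap k K) :=
    minpoly.dvd_map_of_isScalarTower k K y
  have hc : ∀ i, (minpoly K y).coeff i ∈ Set.range (algebraMap k K) := fun i =>
    hk _ (isIntegral_coeff_of_dvd _ _ (minpoly.monic hi) (minpoly.monic hiK) hdvd i).isAlgebraic
  obtain ⟨q, hq⟩ : ∃ q : k[X], q.map (algebraMap k K) = minpoly K y := by
    have : minpoly K y ∈ Polynomial.lifts (algebraMap k K) := by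
      rw [Polynomial.lifts_iff_coeff_lifts]
      exact hc
    exact (Polynomial.mem_lifts _).1 this
  have hq0 : q ≠ 0 := by
    rintro rfl
    rw [Polynomial.map_zero] at hq
    exact (minpoly.ne_zero hiK) hq.symm
  have hqy : aeval y q = 0 := by
    have := minpoly.aeval K y
    rwa [← hq, Polynomial.aeval_map_algebraMap] at this
  calc (minpoly k y).natDegree ≤ q.natDegree :=
        Polynomial.natDegree_le_of_dvd (minpoly.dvd k y hqy) hq0
    _ = (minpoly K y).natDegree := by
        rw [← hq, Polynomial.natDegree_map]

/-- the constants of a finite extension are finite over a perfect field of constants -/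
lemma finiteDimensional_const' [PerfectField k] (hk : AlgClosedIn k K) [FiniteDimensional K F] :
    FiniteDimensional k (algebraicClosure k F) := by
  by_contra hcon
  obtain ⟨M, hM, hlt⟩ := exists_lt_finrank_of_infinite_dimensional hcon (Module.finrank K F)
  obtain ⟨α, hα⟩ := Field.exists_primitive_element k M
  rw [Field.primitive_element_iff_minpoly_natDegree_eq] at hα
  have h1 : minpoly k α = minpoly k ((α : algebraicClosure k F) : F) := by
    have e1 : minpoly k ((α : algebraicClosure k F) : F) = minpoly k (α : algebraicClosure k F) :=
      minpoly.algebraMap_eq (algebraMap (algebraicClosure k F) F).injective _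
    have e2 : minpoly k (α : algebraicClosure k F) = minpoly k α :=
      minpoly.algebraMap_eq (algebraMap M (algebraicClosure k F)).injective _
    rw [e1, e2]
  have h2 := natDegree_minpoly_le (K := K) hk
    (y := ((α : algebraicClosure k F) : F)) (mem_algebraicClosure_iff.1 (α : algebraicClosure k F).2)
  have h3 : (minpoly K ((α : algebraicClosure k F) : F)).natDegree ≤ Module.finrank K F :=
    minpoly.natDegree_le _
  rw [← h1, hα] at h2
  omega

/-- the algebraic closure of `k` in `F` is algebraically closed in `F` -/
lemma algClosedIn_algebraicClosure (k : Type u) (F : Type w) [Field k] [Field F] [Algebra k F] :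
    AlgClosedIn (algebraicClosure k F) F := by
  intro y hy
  have h1 : IsAlgebraic k y := hy.restrictScalars k
  exact ⟨⟨y, mem_algebraicClosure_iff.2 h1⟩, rfl⟩

end

end Pool.Agent.U36.RG
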