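import Pool.Agent.U36.RG.Finite

/-!
# Base change to a finite extension
-/

set_option autoImplicit false

open IntermediateField Polynomial

namespace Pool.Agent.U36.RG

section

variable {K F L Λ : Type} [Field K] [Field F] [Field L] [Field Λ] [Algebra K F] [Algebra K L]
  [Algebra K Λ] [Algebra F Λ] [Algebra L Λ] [IsScalarTower K F Λ] [IsScalarTower K L Λ]
  [FiniteDimensional K F] [FiniteDimensional K L] [IsGalois K L] [FiniteDimensional F Λ]
  [IsGalois F Λ]

/-- the image of `Gal(Λ/F)` in `Gal(L/K)` has index at most `[F : K]` -/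
lemma index_range_le :
    (restrictRestrictAlgEquivMapHom K L F Λ).range.index ≤ Module.finrank K F := by
  set r := restrictRestrictAlgEquivMapHom K L F Λ with hr
  have hrapp : ∀ (σ : Λ ≃ₐ[F] Λ) (x : L), algebraMap L Λ (r σ x) = σ (algebraMap L Λ x) := by
    intro σ x
    exact AlgEquiv.restrictNormal_commutes _ L x
  have h1 : ∀ x : fixedField r.range, ∃ y : F, algebraMap F Λ y = algebraMap L Λ (x : L) := by
    intro x
    have h2 : ∀ σ : Λ ≃ₐ[F] Λ, σ (algebraMap L Λ (x : L)) = algebraMap L Λ (x : L) := by
      intro σ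
      rw [← hrapp, (mem_fixedField_iff _ _).1 x.2 (r σ) ⟨σ, rfl⟩]
    exact (IsGalois.mem_range_algebraMap_iff_fixed (F := F) _).2 h2
  choose g hg using h1
  have hinj : Function.Injective (algebraMap F Λ) := (algebraMap F Λ).injective
  let φ : fixedField r.range →ₗ[K] F :=
    { toFun := g
      map_add' := fun x y => by
        apply hinj
        rw [map_add (algebraMap F Λ), hg, hg, hg]
        exact map_add (algebraMap L Λ) _ _
      map_smul' := fun c x => by
        apply hinj
        rw [RingHom.id_apply, Algebra.smul_def c (g x), map_mul (algebraMap F Λ), hg, hg,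
          ← IsScalarTower.algebraMap_apply K F Λ, IsScalarTower.algebraMap_apply K L Λ,
          ← map_mul (algebraMap L Λ), ← Algebra.smul_def]
        rfl }
  have hφ : Function.Injective φ := by
    intro x y hxy
    have h3 : algebraMap L Λ (x : L) = algebraMap L Λ (y : L) := by
      rw [← hg, ← hg]
      exact congrArg _ hxy
    exact Subtype.ext ((algebraMap L Λ).injective h3)
  have h4 := LinearMap.finrank_le_finrank_of_injective hφ
  have h5 := finrank_eq_fixingSubgroup_index (F := K) (E' := L) (fixedField r.range)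
  rw [fixingSubgroup_fixedField] at h5
  rw [← h5]
  exact h4

end

/-- If `G ^ N` occurs over `K` and `[F : K] < 2 ^ N`, then `G` occurs over `F`. -/
theorem base_change {K F G : Type} [Field K] [Field F] [Algebra K F] [FiniteDimensional K F]
    [Group G] {N : ℕ} (hN : Module.finrank K F < 2 ^ N) (h : Occurs K (Fin N → G)) :
    Occurs F G := by
  obtain ⟨L, _, _, hfd, hgal, ⟨e⟩⟩ := h
  obtain ⟨p, hsep, hsplit⟩ := IsGalois.is_separable_splitting_field K L
  let Λ := (p.map (algebraMap K F)).SplittingField
  have hgal' : IsGalois F Λ :=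
    IsGalois.of_separable_splitting_field (p := p.map (algebraMap K F)) hsep.map
  have hs : (p.map (algebraMap K Λ)).Splits := by
    have := SplittingField.splits (p.map (algebraMap K F))
    rwa [Polynomial.map_map, ← IsScalarTower.algebraMap_eq K F Λ] at this
  let ι : L →ₐ[K] Λ := IsSplittingField.lift L p hs
  letI : Algebra L Λ := ι.toRingHom.toAlgebra
  haveI : IsScalarTower K L Λ := IsScalarTower.of_algebraMap_eq fun x => (ι.commutes x).symm
  have hidx := index_range_le (K := K) (F := F) (L := L) (Λ := Λ)
  obtain ⟨i, hi⟩ := exists_map_eq_top (restrictRestrictAlgEquivMapHom K L F Λ).range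
    e.toMonoidHom e.surjective (lt_of_le_of_lt hidx hN)
  refine Occurs.of_surjective (E := F) (L := Λ)
    (((Pi.evalMonoidHom (fun _ : Fin N => G) i).comp e.toMonoidHom).comp
      (restrictRestrictAlgEquivMapHom K L F Λ)) ?_
  intro x
  have hx : x ∈ (restrictRestrictAlgEquivMapHom K L F Λ).range.map
      ((Pi.evalMonoidHom (fun _ : Fin N => G) i).comp e.toMonoidHom) := hi ▸ Subgroup.mem_top x
  obtain ⟨-, ⟨σ, rfl⟩, hσ⟩ := hx
  exact ⟨σ, hσ⟩

end Pool.Agent.U36.RG
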