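import Mathlib

/-!
# The constants of a Galois extension

`k` is algebraically closed in `E`, and `L / E` is a finite Galois extension.  The algebraic closure
`C` of `k` in `L` is a finite Galois extension of `k` and the restriction `Gal(L/E) → Gal(C/k)` is
surjective.
-/

set_option autoImplicit false

open IntermediateField

namespace Pool.Agent.U36.RG

universe u v w

/-- `k` is algebraically closed in `E` -/
def AlgClosedIn (k : Type*) (E : Type*) [Field k] [Field E] [Algebra k E] : Prop :=
  ∀ y : E, IsAlgebraic k y → y ∈ Set.range (algebraMap k E)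

section

variable (k : Type u) (E : Type v) (L : Type w) [Field k] [Field E] [Field L] [Algebra k E]
  [Algebra E L] [Algebra k L] [IsScalarTower k E L]

/-- the restriction to the algebraic closure `C` of `k` in `L` -/
noncomputable def res : (L ≃ₐ[E] L) →* (algebraicClosure k L ≃ₐ[k] algebraicClosure k L) where
  toFun σ := algebraicClosure.algEquivOfAlgEquiv (σ.restrictScalars k)
  map_one' := by
    ext x
    rfl
  map_mul' σ τ := by
    ext x
    rfl

@[simp] lemma res_apply (σ : L ≃ₐ[E] L) (x : algebraicClosure k L) :
    ((res k E L σ x : algebraicClosure k L) : L) = σ (x : L) := rfl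

lemma fixed_of_ker {τ : L ≃ₐ[E] L} (hτ : τ ∈ (res k E L).ker) {y : L} (hy : IsAlgebraic k y) :
    τ y = y := by
  have h : res k E L τ = 1 := hτ
  have := res_apply k E L τ ⟨y, mem_algebraicClosure_iff.2 hy⟩
  rw [h] at this
  exact this.symm

lemma mem_ker_iff (τ : L ≃ₐ[E] L) :
    τ ∈ (res k E L).ker ↔ ∀ y : L, IsAlgebraic k y → τ y = y := by
  refine ⟨fun h y hy => fixed_of_ker k E L h hy, fun h => ?_⟩
  rw [MonoidHom.mem_ker]
  ext y
  exact h y (mem_algebraicClosure_iff.1 y.2)

variable [FiniteDimensional E L] [IsGalois E L]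

lemma fixedField_range (hk : AlgClosedIn k E) : fixedField (res k E L).range = ⊥ := by
  rw [eq_bot_iff]
  intro x hx
  rw [mem_fixedField_iff] at hx
  have h1 : ∀ σ : L ≃ₐ[E] L, σ (x : L) = x := fun σ => by
    have := hx (res k E L σ) ⟨σ, rfl⟩
    rw [← res_apply k E L σ x, this]
  obtain ⟨y, hy⟩ := (IsGalois.mem_range_algebraMap_iff_fixed (F := E) (x : L)).2 h1
  have h2 : IsAlgebraic k (x : L) := mem_algebraicClosure_iff.1 x.2
  rw [← hy] at h2
  have h3 : IsAlgebraic k y := (isAlgebraic_algebraMap_iff (algebraMap E L).injective).1 h2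
  obtain ⟨z, hz⟩ := hk y h3
  rw [mem_bot]
  refine ⟨z, ?_⟩
  ext
  rw [← hy, ← hz, ← IsScalarTower.algebraMap_apply k E L]
  rfl

lemma finiteDimensional_const (hk : AlgClosedIn k E) :
    FiniteDimensional k (algebraicClosure k L) := by
  have h1 : FiniteDimensional (fixedField (res k E L).range) (algebraicClosure k L) := by
    have : Finite (res k E L).range :=
      Finite.of_surjective _ (res k E L).rangeRestrict_surjective
    exact inferInstanceAs (FiniteDimensional
      (FixedPoints.subfield (res k E L).range (algebraicClosure k L)) (algebraicClosure k L))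
  rw [fixedField_range k E L hk] at h1
  exact FiniteDimensional.trans k (⊥ : IntermediateField k (algebraicClosure k L)) _

lemma isGalois_const (hk : AlgClosedIn k E) : IsGalois k (algebraicClosure k L) := by
  have := finiteDimensional_const k E L hk
  refine IsGalois.of_fixedField_eq_bot _ _ ?_
  rw [eq_bot_iff, ← fixedField_range k E L hk]
  exact fixedField_le le_top

lemma range_res (hk : AlgClosedIn k E) : (res k E L).range = ⊤ := by
  have := finiteDimensional_const k E L hk
  rw [← fixingSubgroup_fixedField (res k E L).range, fixedField_range k E L hk, fixingSubgroup_bot]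

lemma res_surjective (hk : AlgClosedIn k E) : Function.Surjective (res k E L) :=
  MonoidHom.range_eq_top.1 (range_res k E L hk)

/-- an algebraic element fixed by the whole group is a constant -/
lemma mem_range_of_fixed (hk : AlgClosedIn k E) {y : L} (hy : IsAlgebraic k y)
    (h : ∀ σ : L ≃ₐ[E] L, σ y = y) : y ∈ Set.range (algebraMap k L) := by
  obtain ⟨x, hx⟩ := (IsGalois.mem_range_algebraMap_iff_fixed (F := E) y).2 h
  have h3 : IsAlgebraic k x := by
    rw [← hx] at hy
    exact (isAlgebraic_algebraMap_iff (algebraMap E L).injective).1 hy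
  obtain ⟨z, hz⟩ := hk x h3
  exact ⟨z, by rw [← hx, ← hz, ← IsScalarTower.algebraMap_apply k E L]⟩

end

end Pool.Agent.U36.RG
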