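import Mathlib

/-!
# Group theory: coordinates and cyclic quotients
-/

set_option autoImplicit false

namespace Pool.Agent.U36.RG

/-- Let `f 1, …, f N` be pairwise independent surjections `A → G` and `ρ : A → C` a homomorphism
to a cyclic group. If `N` is larger than the number of the prime factors of `|G|` then one of the
`f i` is surjective on the kernel of `ρ`. -/
theorem exists_map_ker_eq_top {A G C : Type*} [Group A] [Group G] [Group C] [Finite G] [IsCyclic C]
    (ρ : A →* C) {N : ℕ} (f : Fin N → (A →* G))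
    (hf : ∀ i j, i ≠ j → ∀ x y : G, ∃ a, f i a = x ∧ f j a = y)
    (hf1 : ∀ i, Function.Surjective (f i))
    (hN : (Nat.card G).primeFactors.card < N) : ∃ i, ρ.ker.map (f i) = ⊤ := by
  classical
  by_contra hcon
  push Not at hcon
  have hn : ∀ i, (ρ.ker.map (f i)).Normal := fun i =>
    Subgroup.Normal.map inferInstance _ (hf1 i)
  have hcyc : IsCyclic (A ⧸ ρ.ker) :=
    isCyclic_of_injective (QuotientGroup.quotientKerEquivRange ρ).toMonoidHom
      (QuotientGroup.quotientKerEquivRange ρ).injective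
  have hcop : ∀ i j, i ≠ j →
      (Nat.card (G ⧸ ρ.ker.map (f i))).Coprime (Nat.card (G ⧸ ρ.ker.map (f j))) := by
    intro i j hij
    have hi := hn i
    have hj := hn j
    let φ : A →* (G ⧸ ρ.ker.map (f i)) × (G ⧸ ρ.ker.map (f j)) :=
      MonoidHom.prod ((QuotientGroup.mk' _).comp (f i)) ((QuotientGroup.mk' _).comp (f j))
    have hφ : ρ.ker ≤ φ.ker := by
      intro a ha
      rw [MonoidHom.mem_ker]
      refine Prod.ext ?_ ?_
      · exact (QuotientGroup.eq_one_iff _).2 ⟨a, ha, rfl⟩
      · exact (QuotientGroup.eq_one_iff _).2 ⟨a, ha, rfl⟩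
    have hsurj : Function.Surjective (QuotientGroup.lift ρ.ker φ hφ) := by
      rintro ⟨x, y⟩
      obtain ⟨x, rfl⟩ := QuotientGroup.mk_surjective x
      obtain ⟨y, rfl⟩ := QuotientGroup.mk_surjective y
      obtain ⟨a, h1, h2⟩ := hf i j hij x y
      refine ⟨(a : A ⧸ ρ.ker), ?_⟩
      rw [QuotientGroup.lift_mk]
      refine Prod.ext ?_ ?_
      · change QuotientGroup.mk' _ (f i a) = _
        rw [h1]; rfl
      · change QuotientGroup.mk' _ (f j a) = _
        rw [h2]; rfl
    have hc : IsCyclic ((G ⧸ ρ.ker.map (f i)) × (G ⧸ ρ.ker.map (f j))) :=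
      isCyclic_of_surjective _ hsurj
    exact (Group.isCyclic_prod_iff.1 hc).2.2
  have hne : ∀ i, Nat.card (G ⧸ ρ.ker.map (f i)) ≠ 1 := by
    intro i h
    exact hcon i (Subgroup.index_eq_one.1 h)
  have hdvd : ∀ i, Nat.card (G ⧸ ρ.ker.map (f i)) ∣ Nat.card G := fun i =>
    Subgroup.index_dvd_card _
  let g : Fin N → ℕ := fun i => (Nat.card (G ⧸ ρ.ker.map (f i))).minFac
  have hg : ∀ i ∈ (Finset.univ : Finset (Fin N)), g i ∈ (Nat.card G).primeFactors := by
    intro i _
    rw [Nat.mem_primeFactors]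
    exact ⟨Nat.minFac_prime (hne i), (Nat.minFac_dvd _).trans (hdvd i), Nat.card_pos.ne'⟩
  have hinj : Set.InjOn g (Finset.univ : Finset (Fin N)) := by
    intro i _ j _ hij
    by_contra hne'
    have h1 := hcop i j hne'
    have h2 : g i ∣ Nat.gcd (Nat.card (G ⧸ ρ.ker.map (f i))) (Nat.card (G ⧸ ρ.ker.map (f j))) :=
      Nat.dvd_gcd (Nat.minFac_dvd _) (hij ▸ Nat.minFac_dvd _)
    rw [h1] at h2
    exact (Nat.minFac_prime (hne i)).one_lt.ne' (Nat.dvd_one.1 h2)
  have := Finset.card_le_card_of_injOn g hg hinj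
  rw [Finset.card_univ, Fintype.card_fin] at this
  omega

/-- Let `H` be a subgroup of `A` of index less than `2 ^ N` and `f 1, …, f N` jointly surjective
homomorphisms `A → G`. One of the `f i` is surjective on `H`. -/
theorem exists_map_eq_top {A G : Type*} [Group A] [Group G] [Finite A] (H : Subgroup A)
    {N : ℕ} (f : A →* (Fin N → G)) (hf : Function.Surjective f) (hN : H.index < 2 ^ N) :
    ∃ i, H.map ((Pi.evalMonoidHom (fun _ : Fin N => G) i).comp f) = ⊤ := by
  classical
  by_contra hcon
  push Not at hcon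
  have hG : Finite G := by
    rcases Nat.eq_zero_or_pos N with h0 | h0
    · subst h0
      have := Subgroup.index_ne_zero_of_finite (H := H)
      omega
    · exact Finite.of_surjective (fun a => f a ⟨0, h0⟩) (fun x => by
        obtain ⟨a, ha⟩ := hf (fun _ => x)
        exact ⟨a, congrFun ha _⟩)
  set M : Fin N → Subgroup G := fun i =>
    H.map ((Pi.evalMonoidHom (fun _ : Fin N => G) i).comp f) with hM
  have h1 : H ≤ (Subgroup.pi Set.univ M).comap f := by
    intro a ha i _
    exact ⟨a, ha, rfl⟩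
  have h2 : (Subgroup.pi Set.univ M).index ≤ H.index := by
    rw [← Subgroup.index_comap_of_surjective _ hf]
    exact Nat.le_of_dvd (Nat.pos_of_ne_zero Subgroup.index_ne_zero_of_finite)
      (Subgroup.index_dvd_of_le h1)
  have h3 : 2 ^ N ≤ (Subgroup.pi Set.univ M).index := by
    rw [Subgroup.index_pi]
    calc 2 ^ N = ∏ _i : Fin N, 2 := by simp
      _ ≤ ∏ i, (M i).index := Finset.prod_le_prod' fun i _ => by
        have h4 : (M i).index ≠ 0 := Subgroup.index_ne_zero_of_finite
        have h5 : (M i).index ≠ 1 := fun h => hcon i (Subgroup.index_eq_one.1 h)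
        omega
  omega

end Pool.Agent.U36.RG
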