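import Pool.Agent.U36.RG.Const
import Pool.Agent.U36.RG.Grp

/-!
# Regular realizations over function fields with finite constants
-/

set_option autoImplicit false

open IntermediateField

namespace Pool.Agent.U36.RG

/-- `G` is the group of a finite Galois extension of `E` -/
def Occurs (E : Type) [Field E] (G : Type) [Group G] : Prop :=
  ∃ (L : Type) (_ : Field L) (_ : Algebra E L), FiniteDimensional E L ∧ IsGalois E L ∧
    Nonempty ((L ≃ₐ[E] L) ≃* G)

/-- `G` is the group of a finite Galois extension `L` of `E` such that every element of `L` which is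
algebraic over the subfield `k` of `E` lies in `E` -/
def OccursRegularly (k E : Type) [Field k] [Field E] [Algebra k E] (G : Type) [Group G] : Prop :=
  ∃ (L : Type) (_ : Field L) (_ : Algebra E L) (_ : Algebra k L) (_ : IsScalarTower k E L),
    FiniteDimensional E L ∧ IsGalois E L ∧ Nonempty ((L ≃ₐ[E] L) ≃* G) ∧
      ∀ y : L, IsAlgebraic k y → y ∈ Set.range (algebraMap E L)

section quot

variable {k E L : Type} [Field k] [Field E] [Field L] [Algebra k E]
  [Algebra E L] [Algebra k L] [IsScalarTower k E L] [FiniteDimensional E L] [IsGalois E L]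
  {G : Type} [Group G]

/-- the quotients of the Galois group occur -/
lemma Occurs.of_surjective (f : (L ≃ₐ[E] L) →* G) (hf : Function.Surjective f) : Occurs E G := by
  refine ⟨fixedField f.ker, inferInstance, inferInstance, inferInstance, inferInstance,
    ⟨(IsGalois.normalAutEquivQuotient f.ker).symm.trans ?_⟩⟩
  exact QuotientGroup.quotientKerEquivOfSurjective f hf

/-- the quotients of the Galois group which are also quotients of the geometric Galois group
occur regularly -/
lemma OccursRegularly.of_surjective (f : (L ≃ₐ[E] L) →* G) (hf : (res k E L).ker.map f = ⊤) :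
    OccursRegularly k E G := by
  have hf' : Function.Surjective f := fun x => by
    have : x ∈ (res k E L).ker.map f := hf ▸ Subgroup.mem_top x
    obtain ⟨a, -, ha⟩ := this
    exact ⟨a, ha⟩
  refine ⟨fixedField f.ker, inferInstance, inferInstance,
    inferInstanceAs (Algebra k (fixedField f.ker)), ?_, inferInstance, inferInstance,
    ⟨(IsGalois.normalAutEquivQuotient f.ker).symm.trans
      (QuotientGroup.quotientKerEquivOfSurjective f hf')⟩, ?_⟩
  · exact IsScalarTower.of_algebraMap_eq fun x => by
      apply (algebraMap (fixedField f.ker) L).injective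
      rw [← IsScalarTower.algebraMap_apply E (fixedField f.ker) L,
        ← IsScalarTower.algebraMap_apply k E L]
      rfl
  · intro y hy
    have hst : IsScalarTower k (fixedField f.ker) L :=
      IsScalarTower.of_algebraMap_eq fun x => rfl
    have hy' : IsAlgebraic k (y : L) := by
      have h : IsAlgebraic k (algebraMap (fixedField f.ker) L y) := hy.algebraMap
      exact h
    have hfix : ∀ σ : L ≃ₐ[E] L, σ (y : L) = y := by
      intro σ
      have h1 : f σ ∈ (res k E L).ker.map f := hf ▸ Subgroup.mem_top _
      obtain ⟨τ, hτ, hτσ⟩ := h1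
      have h2 : τ⁻¹ * σ ∈ f.ker := by
        rw [MonoidHom.mem_ker, map_mul, map_inv, hτσ, inv_mul_cancel]
      have h3 : (τ⁻¹ * σ) (y : L) = y := (mem_fixedField_iff _ _).1 y.2 _ h2
      have h4 : σ (y : L) = τ ((τ⁻¹ * σ) (y : L)) := by
        rw [← AlgEquiv.mul_apply, mul_inv_cancel_left]
      rw [h4, h3]
      exact fixed_of_ker k E L hτ hy'
    obtain ⟨x, hx⟩ := (IsGalois.mem_range_algebraMap_iff_fixed (F := E) (y : L)).2 hfix
    exact ⟨x, Subtype.ext hx⟩

/-- **Finite constant fields.** If `G ^ N` is the Galois group of `L / E`, where `N` is larger than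
the number of the prime factors of `|G|`, then `G` occurs regularly. -/
theorem regular_of_pow (hk : AlgClosedIn k E) [Finite k] [Finite G] {N : ℕ}
    (hN : (Nat.card G).primeFactors.card < N) (e : (L ≃ₐ[E] L) ≃* (Fin N → G)) :
    OccursRegularly k E G := by
  have := finiteDimensional_const k E L hk
  have : Finite (algebraicClosure k L) := Module.finite_of_finite k
  have hcyc : IsCyclic (algebraicClosure k L ≃ₐ[k] algebraicClosure k L) := inferInstance
  obtain ⟨i, hi⟩ := exists_map_ker_eq_top (res k E L)
    (fun i => (Pi.evalMonoidHom (fun _ : Fin N => G) i).comp e.toMonoidHom)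
    (fun i j hij x y => ⟨e.symm (fun l => if l = i then x else y), by simp, by
      simp [hij.symm]⟩)
    (fun i x => ⟨e.symm (fun _ => x), by simp⟩) hN
  exact OccursRegularly.of_surjective _ hi

end quot

end Pool.Agent.U36.RG
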