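import Pool.Agent.U36.RG.Base
import Pool.Agent.U36.RG.RatConst

/-!
# Regular realizations over global function fields
-/

set_option autoImplicit false

open IntermediateField Polynomial

namespace Pool.Agent.U36.RG

/-- powers of powers -/
lemma Occurs.pow_pow {E G : Type} [Field E] [Group G] {N s M : ℕ} (hN : s * M ≤ N)
    (h : Occurs E (Fin N → G)) : Occurs E (Fin s → (Fin M → G)) := by
  obtain ⟨L, _, _, _, _, ⟨e⟩⟩ := h
  have hinj : Function.Injective (fun x : Fin s × Fin M => Fin.castLE hN (finProdFinEquiv x)) :=
    fun x y hxy => finProdFinEquiv.injective (Fin.castLE_injective hN hxy)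
  let f : (Fin N → G) →* (Fin s → (Fin M → G)) :=
    { toFun := fun x i j => x (Fin.castLE hN (finProdFinEquiv (i, j)))
      map_one' := rfl
      map_mul' := fun _ _ => rfl }
  have hf : Function.Surjective f := by
    intro z
    refine ⟨Function.extend (fun x : Fin s × Fin M => Fin.castLE hN (finProdFinEquiv x))
      (fun x => z x.1 x.2) 1, ?_⟩
    funext i j
    exact hinj.extend_apply (fun x : Fin s × Fin M => z x.1 x.2) 1 (i, j)
  exact Occurs.of_surjective (L := L) (f.comp e.toMonoidHom) (hf.comp e.surjective)

/-- regular realizations from powers, over any field whose field of constants is finite -/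
theorem OccursRegularly.of_pow {k E G : Type} [Field k] [Finite k] [Field E] [Algebra k E]
    [Group G] [Finite G] (hk : AlgClosedIn k E) {N : ℕ}
    (hN : (Nat.card G).primeFactors.card < N) (h : Occurs E (Fin N → G)) :
    OccursRegularly k E G := by
  obtain ⟨L, _, _, _, _, ⟨e⟩⟩ := h
  let _ : Algebra k L := ((algebraMap E L).comp (algebraMap k E)).toAlgebra
  have : IsScalarTower k E L := IsScalarTower.of_algebraMap_eq fun _ => rfl
  exact regular_of_pow hk hN e

lemma OccursRegularly.of_tower {k k' E G : Type} [Field k] [Field k'] [Field E] [Algebra k k']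
    [Algebra k' E] [Algebra k E] [IsScalarTower k k' E] [Group G]
    (h : OccursRegularly k' E G) : OccursRegularly k E G := by
  obtain ⟨L, _, _, _, _, hfd, hgal, hiso, hL⟩ := h
  let _ : Algebra k L := ((algebraMap E L).comp (algebraMap k E)).toAlgebra
  have : IsScalarTower k E L := IsScalarTower.of_algebraMap_eq fun _ => rfl
  have : IsScalarTower k k' L := IsScalarTower.of_algebraMap_eq fun x => by
    rw [IsScalarTower.algebraMap_apply k' E L, ← IsScalarTower.algebraMap_apply k k' E]
    rfl
  exact ⟨L, _, _, _, inferInstance, hfd, hgal, hiso, fun y hy =>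
    hL y (hy.extendScalars (algebraMap k k').injective)⟩

/-- regular realizations over a finite extension `F` of `K` -/
theorem OccursRegularly.of_finite {k K F G : Type} [Field k] [Finite k] [Field K] [Field F]
    [Algebra k K] [Algebra K F] [Algebra k F] [IsScalarTower k K F] [FiniteDimensional K F]
    [Group G] [Finite G] (hk : AlgClosedIn k K)
    (h : Occurs K (Fin ((Nat.log 2 (Module.finrank K F) + 1) *
      ((Nat.card G).primeFactors.card + 1)) → G)) :
    OccursRegularly k F G := by
  have h1 : Occurs F (Fin ((Nat.card G).primeFactors.card + 1) → G) :=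
    base_change (Nat.lt_pow_succ_log_self one_lt_two _) (h.pow_pow le_rfl)
  have hfd : FiniteDimensional k (algebraicClosure k F) := finiteDimensional_const' (K := K) hk
  have hfin : Finite (algebraicClosure k F) := Module.finite_of_finite k
  exact OccursRegularly.of_tower (k' := algebraicClosure k F)
    (OccursRegularly.of_pow (k := algebraicClosure k F) (algClosedIn_algebraicClosure k F)
      (Nat.lt_succ_self _) h1)

lemma OccursRegularly.occurs {k E G : Type} [Field k] [Field E] [Algebra k E] [Group G]
    (h : OccursRegularly k E G) : Occurs E G := by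
  obtain ⟨L, _, _, _, _, h1, h2, h3, -⟩ := h
  exact ⟨L, _, _, h1, h2, h3⟩

end Pool.Agent.U36.RG
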